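import Pool.Agent.W544.PG.Final5

/-!
# The Mumford-Tate conjecture for second cohomology, `p_g ≥ 2`

Let `X` be a smooth projective variety over a finitely generated field `k` of characteristic `0`
and let `T` be the transcendental part of `H^2(X)(1)`, the orthogonal complement of the
Neron-Severi group, with a decomposition `T = ⊕ T_i` (for example `T = T_0`, or `X` a product of
surfaces `S_i`).

The Hodge side is the polarised rational Hodge structure `B` (structure `HS n`: the form `Q` on
`ℚ^n` and the Hodge operator), with Hodge numbers `(p_i, q_i, p_i)` on `T_i`; `B.hT` is the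
complexified Lie algebra of its Hodge group (the skew complex matrices which kill all rational
multilinear forms on `T` which are Hodge classes).  We assume that the Hodge endomorphisms of `T`
are rational scalars on the `T_i`.

The Galois side is the structure `GR`: the representation `ρ` of the absolute Galois group `Γ` on
`T ⊗ ℚ_l`, the form `Q`, the Lie algebra `L` of the image of `ρ` (a form on `T` is invariant
under an open subgroup of `Γ` if and only if it is killed by `L`), an embedding `ι` of `ℚ_l` into
the complex numbers (that is `ℂ_l`), and the Sen operator `x` of a specialisation to a number field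
at a place above `l`: it lies in `L ⊗ ℂ` and has eigenvalues `1`, `0`, `-1` with multiplicities
`p_i`, `q_i`, `p_i` on `T_i`.  `T.LC` is `L ⊗ ℂ`.  We assume (`GR.Big`) that the endomorphisms of
`T ⊗ ℚ_l` commuting with an open subgroup of `Γ` are the scalars on the `T_i`, that the identity
component of the Zariski closure of the image is reductive, in the form of the unitary trick
(`GR.Red`: in a suitable basis, orthonormal for `Q`, `L ⊗ ℂ` is closed under adjoints and `x` is
hermitian), that `p_i` and `q_i` are coprime and
`2 p_i^2 (p_i^2 + 1) < (q_i - 2 p_i) (q_i + p_i)` or `p_i = 1`, `q_i ≠ 0, 2`.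

We prove that the two Lie algebras are equal; both are the sum of the `so(T_i)`.  The
Mumford-Tate group of `H^2(X)(1)` and the identity component of the Zariski closure of the image of
Galois act trivially on the Neron-Severi part and are determined by these Lie algebras, so they
are equal: this is the Mumford-Tate conjecture for `H^2(X)`.
-/

open Matrix Finset Module

namespace Pool.Agent.Results.MP_6369ef_ag.IrreducibleTranscendental

open Pool.Agent.W544.PG

/-- The Mumford-Tate conjecture. -/
theorem result {l : ℕ} [Fact l.Prime] {Γ : Type} [Group Γ] [TopologicalSpace Γ] {n r : ℕ}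
    (B : HS n) (T : GR ℚ_[l] Γ n) (hQ : T.Q = B.Q.map fun z : ℚ => (z : ℚ_[l]))
    (c : Fin n → Fin r) (p q : Fin r → ℕ) (hB : B.Big c p q) (hT : T.Big c p q)
    (Z : Matrix (Fin n) (Fin n) ℂ) : Z ∈ T.LC ↔ Z ∈ B.hT :=
  mtF hT B hB hQ Z

end Pool.Agent.Results.MP_6369ef_ag.IrreducibleTranscendental
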